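import Pool.Agent.X198.RS.Part

/-!
# Open subspaces of ray spaces are quasi-ray spaces (MP_a0fd6e_gt, Q1)

For every order tree `T` and every open set `U` of the ray space of `T` there are an order tree
`T'` and a continuous bijection from `U` onto the ray space of `T'`.
-/

open Set Topology X198RS

namespace Pool.Agent.Results.MP_a0fd6e_gt.OpenQuasiRay

universe u

/-- Every open subspace `U` of the ray space `Ray T` of an order tree `T` is a quasi-ray space:
there are an order tree `T'` and a continuous bijection `U → Ray T'`. -/
theorem result (T : Type u) [PartialOrder T] (hT : IsOrderTree T) (U : Set (Ray T))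
    (hU : IsOpen U) : IsQuasiRay U :=
  open_quasiRay hT U hU

end Pool.Agent.Results.MP_a0fd6e_gt.OpenQuasiRay
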